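import Mathlib
import Pool.Agent.H61CI.Fin

/-!
# The log-rank conjecture is local: all cells of some induced copy of every graph

Let `G` be a finite graph of rank `r > 1`, and let `H` be any graph on `k` vertices. For an induced
copy `f` of `H` in `G` and a set `A` of vertices of `H` the cell of `A` consists of the vertices `v`
of `G` whose neighbours in the copy are exactly the `f i`, `i ∈ A`; the `2 ^ k` cells partition the
vertices of `G`. We show: if `log χ(G) > 40 (k + 1) (log r) ^ 2` then there is an induced copy of `H`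
in `G` all of whose cells satisfy `log χ(cell) ≥ log χ(G) - 40 (k + 1) (log r) ^ 2`.

For example (`k = 1`) some vertex `v` of `G` is such that both its neighbourhood and the set of its
non-neighbours have nearly the chromatic number of `G`, up to a factor `exp (80 (log r) ^ 2)`; and
for every `k` of size `(log r) ^ O(1)` and every `H` on `k` vertices a graph with a chromatic number
that is not quasipolynomial in the rank contains an induced copy of `H` such that all `2 ^ k` cells
still have this property. As a consequence Q1 is equivalent to a local form: it is enough to find in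
every `G` one graph `H` with `(log r) ^ O(1)` vertices (it may depend on `G`) such that every induced
copy of `H` in `G` has at least one cell whose chromatic number is at most quasipolynomial in `r`.
If `H` is not an induced subgraph of `G` this condition is void (the file `OmittedSubgraph`).

Proof. If a large set `S` of vertices is given, one tries to choose the copy of `H` in `S` vertex by
vertex, such that the candidates for the remaining vertices and the `2 ^ k` cells, cut down to the
vertices already chosen, remain large subsets of `S`. Either this succeeds, and then a cell with few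
colours is a large subset of `S`, or there is a pair of large subsets of `S` with very few or very
many edges between each vertex of the first and the second, which gives, as in `OmittedSubgraph`, a
large subset of half the rank. Both are coloured by induction and removed.
-/

set_option autoImplicit false

namespace Pool.Agent.Results.MP_3bd889_lc.CellsOfInducedCopies

open Pool.Agent.H61CI (cell)

/-- Q1, as in the frozen statement S14603. -/
def Question : Prop :=
  ∃ c : ℝ, 0 < c ∧ ∃ C : ℝ, ∀ (n : ℕ) (G : SimpleGraph (Fin n)) [DecidableRel G.Adj],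
      G.Connected →
      (∀ u v : Fin n, u ≠ v → ¬ G.Adj u v → G.neighborSet u ≠ G.neighborSet v) →
      1 < (G.adjMatrix ℝ).rank →
      Real.log (G.chromaticNumber.toNat : ℝ) ≤
        C * (Real.log ((G.adjMatrix ℝ).rank : ℝ)) ^ c

/-- The local form of Q1: there are `c > 0` and `C` such that for every connected twin-free graph `G`
of rank `r > 1` there is a graph `H` with `k ≤ C (log r) ^ c` vertices such that every induced copy
of `H` in `G` has a cell with `log χ(cell) ≤ C (log r) ^ c`. -/
def LocalForm : Prop :=
  ∃ c : ℝ, 0 < c ∧ ∃ C : ℝ, ∀ (n : ℕ) (G : SimpleGraph (Fin n)) [DecidableRel G.Adj],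
      G.Connected →
      (∀ u v : Fin n, u ≠ v → ¬ G.Adj u v → G.neighborSet u ≠ G.neighborSet v) →
      1 < (G.adjMatrix ℝ).rank →
      ∃ (k : ℕ) (H : SimpleGraph (Fin k)),
        (k : ℝ) ≤ C * (Real.log ((G.adjMatrix ℝ).rank : ℝ)) ^ c ∧
        ∀ f : H ↪g G, ∃ A : Set (Fin k),
          Real.log ((G.induce (cell G f A)).chromaticNumber.toNat : ℝ) ≤
            C * (Real.log ((G.adjMatrix ℝ).rank : ℝ)) ^ c

theorem local_of_question (h : Question) : LocalForm := by
  obtain ⟨c, hc, C, h⟩ := h
  refine ⟨c, hc, max C 0, ?_⟩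
  intro n G _ hcon htw hr
  have hlog : 0 ≤ Real.log ((G.adjMatrix ℝ).rank : ℝ) := Real.log_natCast_nonneg _
  have hx : 0 ≤ (Real.log ((G.adjMatrix ℝ).rank : ℝ)) ^ c := Real.rpow_nonneg hlog c
  refine ⟨0, ⊥, ?_, fun f => ⟨∅, ?_⟩⟩
  · rw [Nat.cast_zero]
    exact mul_nonneg (le_max_right _ _) hx
  · have h1 : (G.induce (cell G f ∅)).chromaticNumber.toNat ≤ G.chromaticNumber.toNat := by
      apply Pool.Agent.H61CI.toNat_le
      obtain ⟨K⟩ := Pool.Agent.H61CI.colorable_toNat G
      refine ⟨SimpleGraph.Coloring.mk (fun v => K v.1) ?_⟩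
      intro u v huv
      exact K.valid (v := u.1) (w := v.1) huv
    refine le_trans (Pool.Agent.H61CI.log_mono_nat h1) (le_trans (h n G hcon htw hr) ?_)
    exact mul_le_mul_of_nonneg_right (le_max_left _ _) hx

theorem question_of_local (h : LocalForm) : Question := by
  obtain ⟨c, hc, C, h⟩ := h
  set C' : ℝ := max C 0 with hC'
  have hC0 : 0 ≤ C' := le_max_right _ _
  refine ⟨c + 2, by linarith, 40 * C' + 40 / (Real.log 2) ^ c + C' / (Real.log 2) ^ 2, ?_⟩
  intro n G _ hcon htw hr
  obtain ⟨k, H, hk, hH⟩ := h n G hcon htw hr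
  set x : ℝ := Real.log ((G.adjMatrix ℝ).rank : ℝ) with hx
  have hl2 : 0 < Real.log 2 := Real.log_pos (by norm_num)
  have hx2 : Real.log 2 ≤ x := Real.log_le_log (by norm_num) (by exact_mod_cast hr)
  have hx0 : 0 < x := by linarith
  have hxc : 0 < x ^ c := Real.rpow_pos_of_pos hx0 c
  have hkC : (k : ℝ) ≤ C' * x ^ c :=
    le_trans hk (mul_le_mul_of_nonneg_right (le_max_left _ _) hxc.le)
  have hmain : Real.log (G.chromaticNumber.toNat : ℝ) ≤
      40 * ((k : ℝ) + 1) * x ^ 2 + C' * x ^ c := by
    by_cases hbig : 40 * ((k : ℝ) + 1) * x ^ 2 < Real.log (G.chromaticNumber.toNat : ℝ)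
    · obtain ⟨f, hf⟩ := Pool.Agent.H61CI.cells G hr k H hbig
      obtain ⟨A, hA⟩ := hH f
      have h1 := hf A
      have h2 : C * x ^ c ≤ C' * x ^ c := mul_le_mul_of_nonneg_right (le_max_left _ _) hxc.le
      linarith
    · push Not at hbig
      have : 0 ≤ C' * x ^ c := mul_nonneg hC0 hxc.le
      linarith
  have e1 : x ^ (c + 2) = x ^ c * x ^ 2 := by
    rw [Real.rpow_add hx0]; norm_num
  have h3 : x ^ 2 ≤ x ^ (c + 2) / (Real.log 2) ^ c := by
    rw [e1, le_div_iff₀ (Real.rpow_pos_of_pos hl2 c), mul_comm]
    exact mul_le_mul_of_nonneg_right (Real.rpow_le_rpow hl2.le hx2 hc.le) (by positivity)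
  have h4 : x ^ c ≤ x ^ (c + 2) / (Real.log 2) ^ 2 := by
    rw [e1, le_div_iff₀ (by positivity)]
    exact mul_le_mul_of_nonneg_left (pow_le_pow_left₀ hl2.le hx2 2) hxc.le
  have h5 : (k : ℝ) * x ^ 2 ≤ C' * x ^ (c + 2) := by
    rw [e1, ← mul_assoc]
    exact mul_le_mul_of_nonneg_right hkC (by positivity)
  calc Real.log (G.chromaticNumber.toNat : ℝ) ≤ 40 * ((k : ℝ) + 1) * x ^ 2 + C' * x ^ c := hmain
    _ = 40 * ((k : ℝ) * x ^ 2) + 40 * x ^ 2 + C' * x ^ c := by ring
    _ ≤ 40 * (C' * x ^ (c + 2)) + 40 * (x ^ (c + 2) / (Real.log 2) ^ c) +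
        C' * (x ^ (c + 2) / (Real.log 2) ^ 2) := by
      have h6 := mul_le_mul_of_nonneg_left h4 hC0
      linarith
    _ = _ := by ring

/-- (1) For every finite graph `G` of rank `r > 1` and every graph `H` on `k` vertices: if
`log χ(G) > 40 (k + 1) (log r) ^ 2` then `G` has an induced copy of `H` such that all the `2 ^ k`
cells of the copy satisfy `log χ(cell) ≥ log χ(G) - 40 (k + 1) (log r) ^ 2`.
(2) Q1 is equivalent to its local form. -/
theorem result :
    (∀ (n : ℕ) (G : SimpleGraph (Fin n)) [DecidableRel G.Adj], 1 < (G.adjMatrix ℝ).rank →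
      ∀ (k : ℕ) (H : SimpleGraph (Fin k)),
        40 * ((k : ℝ) + 1) * (Real.log ((G.adjMatrix ℝ).rank : ℝ)) ^ 2 <
          Real.log (G.chromaticNumber.toNat : ℝ) →
        ∃ f : H ↪g G, ∀ A : Set (Fin k),
          Real.log (G.chromaticNumber.toNat : ℝ) -
              40 * ((k : ℝ) + 1) * (Real.log ((G.adjMatrix ℝ).rank : ℝ)) ^ 2 ≤
            Real.log ((G.induce (cell G f A)).chromaticNumber.toNat : ℝ)) ∧
    (Question ↔ LocalForm) :=
  ⟨fun _ G _ hr k H h => Pool.Agent.H61CI.cells G hr k H h,
    local_of_question, question_of_local⟩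

end Pool.Agent.Results.MP_3bd889_lc.CellsOfInducedCopies
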