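import Pool.Agent.H86.Codeg.Main
import Pool.Agent.H974R3.RankCol

set_option autoImplicit false

namespace Pool.Agent.Results.MP_3bd889_lc.FewCodegrees

open Finset

/-- Let `G` be a twin-free graph on `n` vertices with adjacency matrix `A` of rank `r`, let `Q` be a
positive definite matrix (for the identity matrix `(A Q A) x y` is the number of common neighbours
of `x` and `y`), let `D` be a finite set of reals and `t` a natural number. If every vertex `x` has
at most `t` non-neighbours `y ≠ x` with `(A Q A) x y` outside `D`, then `n` is at most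
`(t + 1) (r + d + 1).choose (d + 1)`, where `d` is the size of `D`, and so
`log χ(G) ≤ log (t + 1) + (d + 1) log (r + 1)`. -/
theorem result (n : ℕ) (G : SimpleGraph (Fin n)) [DecidableRel G.Adj]
    (htw : ∀ u v : Fin n, u ≠ v → ¬ G.Adj u v → G.neighborSet u ≠ G.neighborSet v)
    (Q : Matrix (Fin n) (Fin n) ℝ) (hQ : Q.PosDef) (D : Finset ℝ) (t : ℕ)
    (hD : ∀ x : Fin n, {y | y ≠ x ∧ ¬ G.Adj x y ∧
      (G.adjMatrix ℝ * Q * G.adjMatrix ℝ) x y ∉ D}.ncard ≤ t) :
    n ≤ (t + 1) * ((G.adjMatrix ℝ).rank + D.card + 1).choose (D.card + 1) ∧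
    Real.log (G.chromaticNumber.toNat : ℝ) ≤
      Real.log (t + 1) + (D.card + 1) * Real.log ((G.adjMatrix ℝ).rank + 1) := by
  classical
  have h1 := Pool.Agent.H86.Codeg.main G (by
    intro u v huv
    by_contra hne
    refine htw u v hne ?_ ?_
    · intro hadj
      exact G.loopless.irrefl v ((huv v).1 hadj)
    · ext w
      rw [SimpleGraph.mem_neighborSet, SimpleGraph.mem_neighborSet]
      exact huv w) Q hQ D t hD
  rw [Fintype.card_fin] at h1
  refine ⟨h1, ?_⟩
  have h2 : n ≤ (t + 1) * ((G.adjMatrix ℝ).rank + 1) ^ (D.card + 1) := by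
    refine h1.trans (Nat.mul_le_mul_left _ ?_)
    rw [add_assoc]
    exact Pool.Agent.H974R3.RC.choose_le _ _
  have h3 : G.chromaticNumber.toNat ≤ n := by
    have h4 : G.Colorable n := by
      have := SimpleGraph.colorable_of_fintype G
      rwa [Fintype.card_fin] at this
    have := ENat.toNat_le_toNat h4.chromaticNumber_le (ENat.natCast_ne_top n)
    simpa using this
  have h5 : Real.log (t + 1) + (D.card + 1) * Real.log ((G.adjMatrix ℝ).rank + 1) =
      Real.log (((t + 1) * ((G.adjMatrix ℝ).rank + 1) ^ (D.card + 1) : ℕ) : ℝ) := by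
    push_cast
    rw [Real.log_mul (by positivity) (by positivity), Real.log_pow]
    push_cast
    ring
  rw [h5]
  by_cases h0 : G.chromaticNumber.toNat = 0
  · rw [h0]
    simp only [Nat.cast_zero, Real.log_zero]
    exact Real.log_natCast_nonneg _
  · apply Real.log_le_log
    · have : 0 < G.chromaticNumber.toNat := Nat.pos_of_ne_zero h0
      exact_mod_cast this
    · exact_mod_cast h3.trans h2

end Pool.Agent.Results.MP_3bd889_lc.FewCodegrees
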