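import Pool.Agent.H86.Energy.Main

set_option autoImplicit false

namespace Pool.Agent.Results.MP_3bd889_lc.FewLargeEigenvalues

open Finset

/-- Let `G` be a twin-free graph of rank `r > 1`, let `s ≥ 1` be real and `1 ≤ p ≤ r`. If at most
`p` eigenvalues of the adjacency matrix are below `-s`, or at most `p` of them are above `s`, then
`log χ(G) ≤ log s + 1400 √p (1 + log (r / p)) log r`. -/
theorem result (n : ℕ) (G : SimpleGraph (Fin n)) [DecidableRel G.Adj]
    (htw : ∀ u v : Fin n, u ≠ v → ¬ G.Adj u v → G.neighborSet u ≠ G.neighborSet v)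
    (hr : 1 < (G.adjMatrix ℝ).rank)
    (s : ℝ) (hs : 1 ≤ s) (p : ℕ) (hp : 1 ≤ p) (hpr : p ≤ (G.adjMatrix ℝ).rank)
    (hcount : (univ.filter fun i : Fin n => (G.isHermitian_adjMatrix ℝ).eigenvalues i < -s).card ≤ p ∨
      (univ.filter fun i : Fin n => s < (G.isHermitian_adjMatrix ℝ).eigenvalues i).card ≤ p) :
    Real.log (G.chromaticNumber.toNat : ℝ) ≤
      Real.log s + 1400 * (Real.sqrt p * (1 + Real.log ((G.adjMatrix ℝ).rank / p)) *
        Real.log (G.adjMatrix ℝ).rank) := by
  classical
  have hE := Pool.Agent.H86.Energy.exists_eig (G.isHermitian_adjMatrix ℝ)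
  obtain ⟨σ, hσ, hN⟩ : ∃ σ : ℝ, σ * σ = 1 ∧
      Pool.Agent.H86.Energy.NegS (σ • G.adjMatrix ℝ) s p := by
    rcases hcount with h | h
    · refine ⟨1, by norm_num, Pool.Agent.H86.Energy.negS_of_count hE s p 1 ?_⟩
      simpa only [one_mul] using h
    · refine ⟨-1, by norm_num, Pool.Agent.H86.Energy.negS_of_count hE s p (-1) ?_⟩
      have : (univ.filter fun i : Fin n => -1 * (G.isHermitian_adjMatrix ℝ).eigenvalues i < -s) =
          univ.filter fun i : Fin n => s < (G.isHermitian_adjMatrix ℝ).eigenvalues i := by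
        apply filter_congr
        intro i _
        rw [neg_one_mul, neg_lt_neg_iff]
      rw [this]
      exact h
  obtain ⟨N, hN0, hcol, hlog⟩ := Pool.Agent.H86.Energy.main G (by
    intro u v huv
    by_contra hne
    by_cases hadj : G.Adj u v
    · have h1 := (huv u).mpr hadj
      exact G.loopless.irrefl u h1
    · apply htw u v hne hadj
      ext x
      rw [SimpleGraph.mem_neighborSet, SimpleGraph.mem_neighborSet, G.adj_comm u x, G.adj_comm v x]
      exact huv x) hr σ hσ s hs p hp hpr hN
  refine le_trans ?_ hlog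
  have h1 : G.chromaticNumber ≤ N := hcol.chromaticNumber_le
  have h2 : G.chromaticNumber.toNat ≤ N := by
    have := ENat.toNat_le_toNat h1 (ENat.natCast_ne_top N)
    simpa using this
  by_cases h0 : G.chromaticNumber.toNat = 0
  · rw [h0]
    simp only [Nat.cast_zero, Real.log_zero]
    exact Real.log_natCast_nonneg N
  · apply Real.log_le_log
    · have : 0 < G.chromaticNumber.toNat := Nat.pos_of_ne_zero h0
      exact_mod_cast this
    · exact_mod_cast h2

end Pool.Agent.Results.MP_3bd889_lc.FewLargeEigenvalues
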