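import Pool.Agent.H86.Inertia.Count

set_option autoImplicit false

namespace Pool.Agent.Results.MP_3bd889_lc.FewNegativeEigenvalues

open Finset

/-- The number of negative eigenvalues of the adjacency matrix of `G`, with multiplicity. -/
noncomputable def numNeg {n : ℕ} (G : SimpleGraph (Fin n)) [DecidableRel G.Adj] : ℕ :=
  (univ.filter fun i : Fin n => (G.isHermitian_adjMatrix ℝ).eigenvalues i < 0).card

/-- The number of positive eigenvalues of the adjacency matrix of `G`, with multiplicity. -/
noncomputable def numPos {n : ℕ} (G : SimpleGraph (Fin n)) [DecidableRel G.Adj] : ℕ :=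
  (univ.filter fun i : Fin n => 0 < (G.isHermitian_adjMatrix ℝ).eigenvalues i).card

/-- Let `G` be a twin-free graph on `n` vertices, of rank `r > 1`. If `G` has `p` negative
eigenvalues then `n ≤ (4p+3)^p`; if it has `p` positive ones then `n ≤ r (4p+3)^p`; and with `p`
the smaller of the two numbers, `log χ(G) ≤ p log (4p+3) + log r`. -/
theorem result (n : ℕ) (G : SimpleGraph (Fin n)) [DecidableRel G.Adj]
    (htw : ∀ u v : Fin n, u ≠ v → ¬ G.Adj u v → G.neighborSet u ≠ G.neighborSet v)
    (hr : 1 < (G.adjMatrix ℝ).rank) :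
    n ≤ (4 * numNeg G + 3) ^ numNeg G ∧
    n ≤ (G.adjMatrix ℝ).rank * (4 * numPos G + 3) ^ numPos G ∧
    Real.log (G.chromaticNumber.toNat : ℝ) ≤
      (min (numNeg G) (numPos G) : ℕ) * Real.log (4 * (min (numNeg G) (numPos G) : ℕ) + 3) +
        Real.log ((G.adjMatrix ℝ).rank : ℝ) := by
  classical
  have hneg : Pool.Agent.H86.Inertia.NegLE (G.adjMatrix ℝ) (numNeg G) :=
    Pool.Agent.H86.Inertia.negLE_of_eigenvalues (G.isHermitian_adjMatrix ℝ) _ le_rfl
  have hpos : Pool.Agent.H86.Inertia.NegLE (-(G.adjMatrix ℝ)) (numPos G) :=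
    Pool.Agent.H86.Inertia.posLE_of_eigenvalues (G.isHermitian_adjMatrix ℝ) _ le_rfl
  have h1 := Pool.Agent.H86.Inertia.rows_le_neg G hneg
  have h2 := Pool.Agent.H86.Inertia.rows_le_pos G hpos
  rw [max_eq_right hr.le] at h2
  have hn : (Pool.Agent.H86.Inertia.rows G).card = n := by
    unfold Pool.Agent.H86.Inertia.rows
    rw [card_image_of_injective, card_univ, Fintype.card_fin]
    intro u v huv
    by_contra hne
    have huv' : ∀ w, G.Adj u w ↔ G.Adj v w := by
      intro w
      have h3 := congrFun huv w
      simp only [SimpleGraph.adjMatrix_apply] at h3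
      by_cases h4 : G.Adj u w <;> by_cases h5 : G.Adj v w <;> simp_all
    refine htw u v hne ?_ ?_
    · intro hadj
      exact G.loopless.irrefl v ((huv' v).1 hadj)
    · ext w
      rw [SimpleGraph.mem_neighborSet, SimpleGraph.mem_neighborSet]
      exact huv' w
  rw [hn] at h1 h2
  refine ⟨h1, h2, ?_⟩
  set p := min (numNeg G) (numPos G) with hp
  set r := (G.adjMatrix ℝ).rank with hrdef
  have h3 : n ≤ r * (4 * p + 3) ^ p := by
    rcases min_choice (numNeg G) (numPos G) with h | h
    · rw [hp, h]
      exact h1.trans (Nat.le_mul_of_pos_left _ (by omega))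
    · rw [hp, h]
      exact h2
  have h4 : G.chromaticNumber.toNat ≤ n := by
    have h5 : G.Colorable n := by
      have := Pool.Agent.H86.Inertia.colorable_rows G
      rwa [hn] at this
    have := ENat.toNat_le_toNat h5.chromaticNumber_le (ENat.natCast_ne_top n)
    simpa using this
  have hr0 : (0 : ℝ) < r := by
    have : 0 < r := by omega
    exact_mod_cast this
  have h6 : (p : ℝ) * Real.log (4 * p + 3) + Real.log r = Real.log (r * (4 * p + 3) ^ p) := by
    rw [Real.log_mul hr0.ne' (by positivity), Real.log_pow]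
    ring
  rw [h6]
  by_cases h0 : G.chromaticNumber.toNat = 0
  · rw [h0]
    simp only [Nat.cast_zero, Real.log_zero]
    have : Real.log ((r * (4 * p + 3) ^ p : ℕ) : ℝ) ≥ 0 := Real.log_natCast_nonneg _
    push_cast at this
    exact this
  · apply Real.log_le_log
    · have : 0 < G.chromaticNumber.toNat := Nat.pos_of_ne_zero h0
      exact_mod_cast this
    · exact_mod_cast h4.trans h3

end Pool.Agent.Results.MP_3bd889_lc.FewNegativeEigenvalues
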